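import Pool.Agent.Helper7.KT.St

/-!
# Project KT, module FAA: tuples with an edge at two places
-/

set_option autoImplicit false

namespace Pool.Agent.Helper45.KT

open Finset SimpleGraph Filter Topology
open EX Pool.Agent.Helper7.KT

open scoped Classical

theorem hFAA : StFAA := by
  intro n k Γ F b l l' hl hl' hll hinj hadj
  have hI : Fintype.card {i : Fin (k + 1) // i ≠ b ∧ i ≠ l ∧ i ≠ l'} = k - 2 := by
    rw [Fintype.card_subtype]
    have h1 : (univ.filter fun i : Fin (k + 1) => i ≠ b ∧ i ≠ l ∧ i ≠ l')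
        = univ \ {b, l, l'} := by
      ext i
      simp only [mem_filter, mem_univ, true_and, Finset.mem_sdiff, mem_insert, mem_singleton, not_or,
        ne_eq]
    rw [h1, card_univ_sdiff, Fintype.card_fin]
    have h2 : ({b, l, l'} : Finset (Fin (k + 1))).card = 3 :=
      card_eq_three.2 ⟨b, l, l', hl.symm, hl'.symm, hll, rfl⟩
    rw [h2]
    omega
  let T : Finset ((Σ _ : Fin n, Fin n) × ({i : Fin (k + 1) // i ≠ b ∧ i ≠ l ∧ i ≠ l'} → Fin n)) :=
    (univ.sigma fun v => nb Γ univ v) ×ˢ univ
  have hT : T.card = (∑ v, dg Γ univ v) * n ^ (k - 2) := by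
    change ((univ.sigma fun v => nb Γ univ v) ×ˢ univ).card = _
    rw [card_product, card_sigma, card_univ, Fintype.card_fun, Fintype.card_fin, hI]
    rfl
  rw [← hT]
  refine card_le_card_of_injOn
    (fun e => ((⟨e l, e l'⟩ : Σ _ : Fin n, Fin n),
      fun i : {i : Fin (k + 1) // i ≠ b ∧ i ≠ l ∧ i ≠ l'} => e i.1)) ?_ ?_
  · intro e he
    have h := hadj e he
    simp only [T, coe_product, Set.mem_prod, mem_coe, mem_sigma, mem_univ, true_and, nb,
      mem_filter, and_true]
    exact h
  · intro e he e' he' h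
    simp only [Prod.mk.injEq, Sigma.mk.injEq] at h
    obtain ⟨⟨h1, h2⟩, h3⟩ := h
    have h2' : e l' = e' l' := eq_of_heq h2
    refine hinj e he e' he' fun i hi => ?_
    by_cases h4 : i = l
    · rw [h4]; exact h1
    by_cases h5 : i = l'
    · rw [h5]; exact h2'
    exact congrFun h3 ⟨i, hi, h4, h5⟩

end Pool.Agent.Helper45.KT
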