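import Pool.Agent.Helper52.KT.St

set_option autoImplicit false

namespace Pool.Agent.Helper45.KT

open Pool.Agent.Helper26.Kempe Pool.Agent.Helper52.KT Pool.Agent.Helper52.KT.St
open Pool.Agent.Helper52.KR (N Zc Mn Hs KE_proper mem_N)
open scoped Classical

theorem hGE : GE := by
  intro hAB hST hLR hWC hBC hEC hAC hFS V _ k G W M D φ lam A A' A'' t η1 η0 r0 τ o hW hD hM hφ
    hlam hA' hA hA'' hIn hce hr0 hr0a hη0 hr0b hτ0 hτ1 hτl hfin f0 hf0
  have hex : ∃ n, ∃ g, KE G f0 g ∧ Zc g o = n := ⟨_, f0, KE.refl f0, rfl⟩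
  obtain ⟨f, hf, hfn⟩ := Nat.find_spec hex
  have hmin : ∀ g, KE G f0 g → Zc f o ≤ Zc g o := by
    intro g hg; rw [hfn]; exact Nat.find_min' hex ⟨g, hg, rfl⟩
  have hpr : Proper G f := KE_proper hf0 hf
  have hMn : Mn G f o := ⟨hpr, fun g hg => hmin g (hf.trans hg)⟩
  refine ⟨f, hf, ?_⟩
  intro v hv
  have hlam0 : 0 < lam := by linarith
  let Y : Finset V := Finset.univ.filter (fun y => f y ≠ o)
  let e : List V → Finset V := fun P => ext G W M f o P
  let w : V → V → ℝ := fun a b => wt G W M φ f o a b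
  let ρ : V → ℝ := fun z => lam * ∑ y ∈ Y, w y z + r0
  let β : List V → V → ℝ := fun R z => (bad G f M R z : ℝ) +
    (if ∃ u L', R = u :: L' ∧ G.Adj u z ∧ t < ((N G u ∩ N G z).card : ℝ) then η0 + 1 else 0)
  have hw01 : ∀ a b, 0 ≤ w a b ∧ w a b ≤ 1 := fun a b =>
    ⟨wt_nonneg (fun n => (hφ n).1) a b, wt_le_one (fun n => (hφ n).2) a b⟩
  have hs0 : ∀ z, 0 ≤ ∑ y ∈ Y, w y z := fun z => Finset.sum_nonneg fun y _ => (hw01 y z).1
  have hsD : ∀ z, ∑ y ∈ Y, w y z ≤ D := by
    intro z
    have h1 : ∑ y ∈ Y, w y z ≤ ∑ y ∈ Y, (if y ∈ N G z then (1 : ℝ) else 0) := by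
      apply Finset.sum_le_sum
      intro y _
      by_cases hy : y ∈ N G z
      · rw [if_pos hy]; exact (hw01 y z).2
      · rw [if_neg hy]
        refine le_of_eq (wt_zero fun h => hy (mem_N.2 h.1.symm))
    have h2 : ∑ y ∈ Y, (if y ∈ N G z then (1 : ℝ) else 0) ≤
        ∑ y, (if y ∈ N G z then (1 : ℝ) else 0) :=
      Finset.sum_le_univ_sum_of_nonneg fun y => by split_ifs <;> norm_num
    have h3 : ∑ y, (if y ∈ N G z then (1 : ℝ) else 0) = ((N G z).card : ℝ) := by
      rw [Finset.sum_boole]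
      congr 2
      ext y; simp
    rw [h3] at h2
    have h4 : ((N G z).card : ℝ) ≤ D := by exact_mod_cast hD z
    linarith
  have hvd : ∀ s, ∀ P ∈ Ex e [v] s, Vd G W M f o P := by
    intro s
    cases s with
    | zero =>
      intro P hP
      simp only [Ex, Finset.mem_singleton] at hP
      subst hP; exact vd_single.2 hv
    | succ s =>
      intro P hP
      obtain ⟨P', _, b, hb, rfl⟩ := mem_Ex_succ.1 hP
      exact mem_ext.1 hb
  have hlen : ∀ s, ∀ P ∈ Ex e [v] s, P.length = s + 1 := by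
    intro s P hP
    have := Ex_length hP
    simp at this; omega
  have hbad1 : ∀ z, bad G f M [v] z = 0 := by
    intro z
    unfold bad
    rw [Finset.card_eq_zero, Finset.filter_eq_empty_iff]
    rintro c _ ⟨_, h⟩
    exact h
  refine hAB V v e w ρ Y β r0 (lam * D + r0) lam τ η0
    (((M : ℝ) + 2) * ((M : ℝ) + 1) ^ (M + 1) * D + η1 * (η0 + 1)) hw01 ?_ hr0 hlam0 ?_ ?_ ?_ ?_
    hη0 ?_ hτ0 hτ1 hτl hfin
  · intro z
    have h1 := mul_nonneg hlam0.le (hs0 z)
    have h2 := mul_le_mul_of_nonneg_left (hsD z) hlam0.le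
    exact ⟨by simp only [ρ]; linarith, by simp only [ρ]; linarith⟩
  · intro z
    simp only [ρ]; linarith
  · intro s P hP b hb
    have h1 := mem_ext.1 hb
    have h2 := hlen s P hP
    rcases P with _ | ⟨a, L⟩
    · simp at h2
    · exact Finset.mem_filter.2 ⟨Finset.mem_univ _, (vd_cons.1 h1).1.2.1⟩
  · intro R z
    simp only [β]
    have h1 : (0 : ℝ) ≤ (bad G f M R z : ℝ) := Nat.cast_nonneg _
    split_ifs <;> linarith
  · intro s R hR
    simp only [β]
    rw [Finset.sum_add_distrib]
    have hR1 := hvd s R hR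
    have hR2 := hlen s R hR
    apply add_le_add
    · rcases R with _ | ⟨u, _ | ⟨a, L⟩⟩
      · simp at hR2
      · have hs : s = 0 := by simpa using hR2.symm
        subst hs
        simp only [Ex, Finset.mem_singleton] at hR
        rw [hR]
        rw [Finset.sum_eq_zero (fun z _ => by rw [hbad1 z]; norm_num)]
        positivity
      · have h1 := hBC hWC V k G f M D u a L hpr hD (vd_cons.1 hR1).1.2.2.1
        have h2 : ((∑ z, bad G f M (u :: a :: L) z : ℕ) : ℝ) ≤
            (((M + 2) * (M + 1) ^ (M + 1) * D : ℕ) : ℝ) := by exact_mod_cast h1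
        push_cast at h2
        exact h2
    · rcases R with _ | ⟨u, L⟩
      · simp at hR2
      · have h1 : ∀ z, (if ∃ u' L', u :: L = u' :: L' ∧ G.Adj u' z ∧
            t < ((N G u' ∩ N G z).card : ℝ) then η0 + 1 else 0) =
            (if G.Adj u z ∧ t < ((N G u ∩ N G z).card : ℝ) then (1 : ℝ) else 0) * (η0 + 1) := by
          intro z
          by_cases h : G.Adj u z ∧ t < ((N G u ∩ N G z).card : ℝ)
          · rw [if_pos h, if_pos ⟨u, L, rfl, h⟩, one_mul]
          · rw [if_neg h, if_neg, zero_mul]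
            rintro ⟨u', L', h1, h2⟩
            rw [List.cons.injEq] at h1
            obtain ⟨rfl, _⟩ := h1
            exact h h2
        rw [Finset.sum_congr rfl (fun z _ => h1 z), ← Finset.sum_mul, Finset.sum_boole]
        exact mul_le_mul_of_nonneg_right (hce u) (by linarith)
  · intro t' P hP hh
    have hP1 := hvd t' P hP
    have hP2 := hlen t' P hP
    rcases P with _ | ⟨z, _ | ⟨y0, L⟩⟩
    · simp at hP2
    · have hs : t' = 0 := by simpa using hP2.symm
      subst hs
      simp only [Ex, Finset.mem_singleton, List.cons.injEq, and_true] at hP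
      subst hP
      obtain ⟨h1, h2⟩ := hFS hST hLR V k G W M D φ f o z hMn hv (hW z) hM hD (fun n => (hφ n).1)
      simp only [ρ, hd, w, e]
      rw [Finset.sum_eq_zero (fun y _ => h2 y)]
      linarith
    · have ht' : t' = (y0 :: L).length := by simp at hP2 ⊢; omega
      have harc := (vd_cons.1 hP1).1
      simp only [hd, List.drop_succ_cons] at hh ⊢
      have hβ0 : ∀ m, (bad G f M ((y0 :: L).drop m) z : ℝ) ≤ β ((y0 :: L).drop m) z := by
        intro m
        simp only [β]
        split_ifs <;> linarith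
      have hβn : ∀ m, 0 ≤ β ((y0 :: L).drop m) z := fun m =>
        le_trans (Nat.cast_nonneg _) (hβ0 m)
      have hsum : ∑ m ∈ Finset.range (y0 :: L).length,
          (bad G f M ((y0 :: L).drop m) z : ℝ) ≤ η0 := by
        rw [← ht']
        exact le_trans (Finset.sum_le_sum fun m _ => hβ0 m) hh
      have hcod : ((N G z ∩ N G y0).card : ℝ) ≤ t := by
        by_contra hcon
        push Not at hcon
        have h0 : (0 : ℕ) ∈ Finset.range t' := by
          rw [Finset.mem_range, ht']; simp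
        have h1 := Finset.single_le_sum (f := fun m => β ((y0 :: L).drop m) z)
          (fun m _ => hβn m) h0
        have h2 : η0 + 1 ≤ β ((y0 :: L).drop 0) z := by
          simp only [β, List.drop_zero]
          rw [if_pos ⟨y0, L, rfl, harc.1, by rw [Finset.inter_comm]; exact hcon⟩]
          have : (0 : ℝ) ≤ (bad G f M (y0 :: L) z : ℝ) := Nat.cast_nonneg _
          linarith
        have h3 : β ((y0 :: L).drop 0) z ≤ η0 := le_trans h1 hh
        linarith
      have hac := hAC hEC V k G W M D φ f o lam A A' A'' z y0 L hpr hD hφ hlam0.le hA' hA hA''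
        (hIn f hMn) hP1
      have h1 : A * ((k : ℝ) - 2 - (1 + (D : ℝ) / ((M : ℝ) + 1) + η0)) ≤
          A * ((k : ℝ) - 2 - (1 + (D : ℝ) / ((M : ℝ) + 1) +
            ∑ m ∈ Finset.range (y0 :: L).length, (bad G f M ((y0 :: L).drop m) z : ℝ))) :=
        mul_le_mul_of_nonneg_left (by linarith) hA
      have h2 : A'' * ((N G z ∩ N G y0).card : ℝ) ≤ A'' * t :=
        mul_le_mul_of_nonneg_left hcod hA''
      simp only [ρ, w, e, Y]
      linarith

end Pool.Agent.Helper45.KT
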