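import Pool.Agent.Helper52.KT.St

set_option autoImplicit false

namespace Pool.Agent.Helper45.KT

open Pool.Agent.Helper26.Kempe Pool.Agent.Helper52.KT Pool.Agent.Helper52.KT.St
open Pool.Agent.Helper52.KR (N Zc Mn Hs)
open scoped Classical

theorem hLR : LR := by
  intro hST V _ k G W M o L
  induction L with
  | nil =>
    intro f a c C hf hv hco hca haC hcol hcl _ _ hC
    have hfa : f a = o := vd_single.1 hv
    have hCa := hC hfa
    subst hCa
    have hke := closed_swap (G := G) f (f a) c {a} hcol hcl
    have hpr := closed_swap_proper hf (f a) c {a} hcol hcl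
    refine ⟨_, hke, hpr, ?_⟩
    unfold Zc
    apply Finset.card_lt_card
    refine ⟨fun x hx => ?_, fun h => ?_⟩
    · rw [Finset.mem_filter] at hx ⊢
      refine ⟨Finset.mem_univ _, ?_⟩
      have h1 := hx.2
      by_cases hxa : x = a
      · subst hxa; exact hfa
      · simpa [hxa] using h1
    · have h1 := h (Finset.mem_filter.2 ⟨Finset.mem_univ a, hfa⟩)
      rw [Finset.mem_filter] at h1
      have h2 := h1.2
      simp at h2
      exact hco h2
  | cons b L' ih =>
    intro f a c C hf hv hco hca haC hcol hcl hCL hFb hC
    obtain ⟨harc, haL, hside, hv'⟩ := vd_cons.1 hv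
    have hke := closed_swap (G := G) f (f a) c C hcol hcl
    have hpr := closed_swap_proper hf (f a) c C hcol hcl
    set g : V → Fin k := fun w => if w ∈ C then Equiv.swap (f a) c (f w) else f w with hg
    have hgin : ∀ x ∈ C, g x = Equiv.swap (f a) c (f x) := fun x hx => if_pos hx
    have hgout : ∀ x, x ∉ C → g x = f x := fun x hx => if_neg hx
    have hgL : ∀ x ∈ b :: L', g x = f x := fun x hx => hgout x (fun h => hCL x h hx)
    have hgF : ∀ x, g x ≠ f x → g x ∉ Fb G f x (a :: b :: L') := by
      intro x hx
      by_cases hxC : x ∈ C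
      · rw [hgin x hxC]; exact hFb x hxC
      · exact absurd (hgout x hxC) hx
    have hgF' : ∀ x, g x ≠ f x → g x ∉ Fb G f x (b :: L') := fun x hx h =>
      hgF x hx (mem_Fb_cons.2 (Or.inr h))
    obtain ⟨hvg, hsub⟩ := hST V k G W M f g o (b :: L') hf hpr hgL hgF' hv'
    have hgb : g b = f b := hgL b (List.mem_cons_self)
    have hga : g a = c := by rw [hgin a haC, Equiv.swap_apply_left]
    have hcb : c ≠ f b := by
      intro h
      exact hCL b (hcl a haC b harc.1.symm (Or.inr h.symm)) List.mem_cons_self
    set C' : Finset V := Finset.univ.filter (fun x =>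
      Relation.ReflTransGen (fun y z => G.Adj y z ∧ (g z = f b ∨ g z = f a)) b x) with hC'
    have hmem : ∀ x, x ∈ C' ↔
        Relation.ReflTransGen (fun y z => G.Adj y z ∧ (g z = f b ∨ g z = f a)) b x := by
      intro x; simp [hC']
    have claim : ∀ x ∈ C', x ∈ Bc G f b a ∧ g x = f x := by
      intro x hx
      rw [hmem] at hx
      induction hx with
      | refl => exact ⟨self_mem_Bc b a, hgb⟩
      | @tail y w h1 h2 ih1 =>
        obtain ⟨hy, hgy⟩ := ih1
        have hcy : g y = f b ∨ g y = f a := by rw [hgy]; exact Bc_col hy
        have hsw := swap_of_adj hpr h2.1 hcy h2.2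
        rw [hgy] at hsw
        by_cases hgw : g w = f w
        · refine ⟨Bc_step hy h2.1 ?_ (hgw ▸ h2.2), hgw⟩
          rintro rfl
          rw [hga] at h2
          rcases h2.2 with h | h
          · exact hcb h
          · exact hca h
        · exact absurd (mem_Fb_cons.2 (Or.inl ⟨y, hy, h2.1, hsw.symm⟩)) (hgF w hgw)
    obtain ⟨g', hke', hpr', hlt⟩ := ih g b (f a) C' hpr hvg harc.2.1
      (by rw [hgb]; exact (hf b a harc.1).symm)
      ((hmem b).2 Relation.ReflTransGen.refl)
      (by
        intro x hx
        obtain ⟨h1, h2⟩ := claim x hx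
        rw [h2, hgb]; exact Bc_col h1)
      (by
        intro x hx y hxy hy
        rw [hgb] at hy
        exact (hmem y).2 (((hmem x).1 hx).tail ⟨hxy, hy⟩))
      (fun x hx => (hside x (claim x hx).1).1)
      (by
        intro x hx h
        obtain ⟨h1, h2⟩ := claim x hx
        rw [hgb, h2] at h
        exact (hside x h1).2 (hsub x h))
      (by
        intro h
        rw [hgb] at h
        have h1 := harc.2.2.2.2 h
        ext x
        rw [Finset.mem_singleton]
        constructor
        · intro hx
          have := (claim x hx).1
          rw [h1, Finset.mem_singleton] at this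
          exact this
        · rintro rfl
          exact (hmem _).2 Relation.ReflTransGen.refl)
    refine ⟨g', hke.trans hke', hpr', ?_⟩
    have hZ : Zc g o = Zc f o := by
      unfold Zc
      congr 1
      ext x
      simp only [Finset.mem_filter, Finset.mem_univ, true_and]
      by_cases hxC : x ∈ C
      · have h1 := hcol x hxC
        have h2 := (swap_mem (f a) c (f x)).2 h1
        rw [← hgin x hxC] at h2
        constructor
        · intro h
          rcases h2 with h3 | h3
          · exact absurd (h3.symm.trans h) harc.2.1
          · exact absurd (h3.symm.trans h) hco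
        · intro h
          rcases h1 with h3 | h3
          · exact absurd (h3.symm.trans h) harc.2.1
          · exact absurd (h3.symm.trans h) hco
      · rw [hgout x hxC]
    rw [← hZ]
    exact hlt

end Pool.Agent.Helper45.KT
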