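import Pool.Agent.Helper52.KT.St

set_option autoImplicit false

namespace Pool.Agent.Helper45.KT

open Pool.Agent.Helper26.Kempe Pool.Agent.Helper52.KT Pool.Agent.Helper52.KT.St

theorem hNU : NU := by
  intro κ1 κ2 δ η0 D₀ h1 h2 h12 hδ hδ1 hη0
  have hs0 : 1 ≤ ⌈8 / δ⌉₊ := Nat.one_le_ceil_iff.2 (by positivity)
  obtain ⟨s, hs⟩ : ∃ s : ℕ, s = ⌈8 / δ⌉₊ := ⟨_, rfl⟩
  rw [← hs] at hs0
  have hsδ : 8 / δ ≤ (s : ℝ) := by rw [hs]; exact Nat.le_ceil _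
  have hsR : (0 : ℝ) < s := by exact_mod_cast hs0
  have hsδ' : 8 ≤ (s : ℝ) * δ := by rwa [div_le_iff₀ hδ] at hsδ
  have hsδ2 : 1 / (s : ℝ) ≤ δ / 8 := by
    rw [div_le_div_iff₀ hsR (by norm_num)]; linarith
  refine ⟨s, δ / 16, η0 / (2 * s), 2 * s + s * D₀ + ⌈2 * (2 + 3 * (s : ℝ)) / δ⌉₊, hs0,
    by positivity, by linarith, by positivity, ?_⟩
  intro Δ k t hΔ ht0 htΔ hk
  obtain ⟨x, hx⟩ : ∃ x : ℝ, x = (Δ : ℝ) := ⟨_, rfl⟩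
  rw [← hx] at htΔ hk ⊢
  have hx0 : 0 ≤ x := by rw [hx]; positivity
  have hΔR : (2 : ℝ) * s + s * D₀ + (⌈2 * (2 + 3 * (s : ℝ)) / δ⌉₊ : ℝ) ≤ x := by
    rw [hx]; exact_mod_cast hΔ
  have hc0 : 2 * (2 + 3 * (s : ℝ)) / δ ≤ (⌈2 * (2 + 3 * (s : ℝ)) / δ⌉₊ : ℝ) := Nat.le_ceil _
  have hsD : (0 : ℝ) ≤ s * D₀ := by positivity
  have hc1 : 2 * (2 + 3 * (s : ℝ)) / δ ≤ x := by linarith
  have hc2 : 2 * (2 + 3 * (s : ℝ)) ≤ x * δ := by rwa [div_le_iff₀ hδ] at hc1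
  have hcn : (0 : ℝ) ≤ (⌈2 * (2 + 3 * (s : ℝ)) / δ⌉₊ : ℝ) := by positivity
  have hx2 : 2 * (s : ℝ) ≤ x := by linarith
  have hxD : (s : ℝ) * D₀ ≤ x := by linarith
  obtain ⟨u, hu⟩ : ∃ u : ℝ, u = (1 + δ / 16) * x / s := ⟨_, rfl⟩
  obtain ⟨w, hw⟩ : ∃ w : ℝ, w = (t + δ / 16 * x) / s := ⟨_, rfl⟩
  obtain ⟨Q, hQ⟩ : ∃ Q : ℝ, Q = (κ1 * x + κ2 * t + 3 * δ / 16 * x) / s := ⟨_, rfl⟩
  rw [← hu, ← hw]
  have hxs : x / s ≤ u := by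
    rw [hu]
    apply div_le_div_of_nonneg_right _ hsR.le
    nlinarith
  have hxs0 : 0 ≤ x / s := by positivity
  have hu0 : 0 ≤ u := le_trans hxs0 hxs
  have hxsD : (D₀ : ℝ) ≤ x / s := by rw [le_div_iff₀ hsR]; linarith
  have hxs2 : 2 ≤ x / s := by rw [le_div_iff₀ hsR]; linarith
  have hmain : κ1 * u + κ2 * w + δ / 16 * u ≤ Q := by
    have e1 : κ1 * u + κ2 * w + δ / 16 * u =
        (κ1 * ((1 + δ / 16) * x) + κ2 * (t + δ / 16 * x) + δ / 16 * ((1 + δ / 16) * x)) / s := by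
      rw [hu, hw]; ring
    rw [e1, hQ]
    apply div_le_div_of_nonneg_right _ hsR.le
    have e2 : (κ1 + κ2) * (δ / 16 * x) ≤ 1 * (δ / 16 * x) :=
      mul_le_mul_of_nonneg_right h12 (by positivity)
    have e3 : δ / 16 * (δ / 16 * x) ≤ 1 * (δ / 16 * x) :=
      mul_le_mul_of_nonneg_right (by linarith) (by positivity)
    nlinarith
  have hQ0 : 0 ≤ κ1 * x + κ2 * t + 3 * δ / 16 * x := by positivity
  have hK : κ1 * x + κ2 * t ≤ x := by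
    have e1 : κ2 * t ≤ κ2 * x := mul_le_mul_of_nonneg_left htΔ h2
    have e2 : (κ1 + κ2) * x ≤ 1 * x := mul_le_mul_of_nonneg_right h12 hx0
    nlinarith
  have hQx : Q ≤ 3 * δ / 16 * x := by
    have e1 : Q = (κ1 * x + κ2 * t + 3 * δ / 16 * x) * (1 / s) := by rw [hQ]; ring
    rw [e1]
    have e2 := mul_le_mul_of_nonneg_left hsδ2 hQ0
    have e3 : 3 * δ / 16 * x ≤ 3 / 16 * x := mul_le_mul_of_nonneg_right (by linarith) hx0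
    have e4 : (κ1 * x + κ2 * t + 3 * δ / 16 * x) * (δ / 8) ≤ (19 / 16 * x) * (δ / 8) :=
      mul_le_mul_of_nonneg_right (by linarith) (by positivity)
    have e5 : (19 / 16 * x) * (δ / 8) ≤ 3 * δ / 16 * x := by
      have : 0 ≤ x * δ := by positivity
      linarith
    linarith
  have hsQ : (s : ℝ) * Q = κ1 * x + κ2 * t + 3 * δ / 16 * x := by
    rw [hQ]; field_simp
  obtain ⟨E, hE⟩ : ∃ E : ℝ, E = κ1 * (⌊u⌋₊ : ℝ) + κ2 * w + δ / 16 * (⌊u⌋₊ : ℝ) + 2 := ⟨_, rfl⟩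
  have hw0 : 0 ≤ w := by rw [hw]; positivity
  have hfl : (⌊u⌋₊ : ℝ) ≤ u := Nat.floor_le hu0
  have hE2 : 2 ≤ E := by
    rw [hE]
    have : 0 ≤ κ1 * (⌊u⌋₊ : ℝ) + κ2 * w + δ / 16 * (⌊u⌋₊ : ℝ) := by positivity
    linarith
  have hEQ : E ≤ Q + 2 := by
    rw [hE]
    have e1 : κ1 * (⌊u⌋₊ : ℝ) ≤ κ1 * u := mul_le_mul_of_nonneg_left hfl h1
    have e2 : δ / 16 * (⌊u⌋₊ : ℝ) ≤ δ / 16 * u := mul_le_mul_of_nonneg_left hfl (by positivity)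
    linarith
  have hq1 : (⌈E⌉₊ : ℝ) < E + 1 := Nat.ceil_lt_add_one (by linarith)
  refine ⟨⌈E⌉₊, Nat.one_le_ceil_iff.2 (by linarith), by rw [← hE]; exact Nat.le_ceil _, ?_⟩
  intro i hi
  have hiR : (i : ℝ) + 1 ≤ s := by exact_mod_cast hi
  have hi0 : (0 : ℝ) ≤ i := by positivity
  obtain ⟨r, hr⟩ : ∃ r : ℝ, r = (s : ℝ) - i := ⟨_, rfl⟩
  rw [← hr]
  have hr1 : 1 ≤ r := by linarith
  have hru : u ≤ r * u := by nlinarith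
  have hfl2 : (⌊r * u⌋₊ : ℝ) ≤ r * u := Nat.floor_le (by positivity)
  have hfl3 : r * u < (⌊r * u⌋₊ : ℝ) + 1 := Nat.lt_floor_add_one _
  refine ⟨Nat.le_floor (by linarith), ?_, ?_⟩
  · have e1 : η0 / (2 * s) * x = η0 * (x / s / 2) := by field_simp
    rw [e1]
    apply mul_le_mul_of_nonneg_left _ hη0.le
    linarith
  · have e1 : κ1 * (⌊r * u⌋₊ : ℝ) ≤ κ1 * (r * u) := mul_le_mul_of_nonneg_left hfl2 h1
    have e2 : δ / 16 * (⌊r * u⌋₊ : ℝ) ≤ δ / 16 * (r * u) :=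
      mul_le_mul_of_nonneg_left hfl2 (by positivity)
    have e3 : r * (κ1 * u + κ2 * w + δ / 16 * u) ≤ r * Q :=
      mul_le_mul_of_nonneg_left hmain (by linarith)
    have e4 : ((i : ℝ) + 1) * (⌈E⌉₊ : ℝ) ≤ ((i : ℝ) + 1) * (Q + 3) :=
      mul_le_mul_of_nonneg_left (by linarith) (by linarith)
    have e5 : r * Q + ((i : ℝ) + 1) * (Q + 3) = (s : ℝ) * Q + Q + 3 * ((i : ℝ) + 1) := by
      rw [hr]; ring
    nlinarith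

end Pool.Agent.Helper45.KT
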