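import Pool.Agent.Helper52.KT.St

set_option autoImplicit false

namespace Pool.Agent.Helper45.KT

open Pool.Agent.Helper26.Kempe Pool.Agent.Helper52.KT Pool.Agent.Helper52.KT.St
open Pool.Agent.Helper52.KR (N Zc Mn Hs)
open scoped Classical

theorem hPU : PU := by
  intro hGE hIU δ hδ hδ1
  obtain ⟨M, hM⟩ : ∃ M : ℕ, M = ⌈10 / δ⌉₊ := ⟨_, rfl⟩
  have hMR : 10 / δ ≤ (M : ℝ) := by rw [hM]; exact Nat.le_ceil _
  have hMδ : 10 ≤ (M : ℝ) * δ := by rwa [div_le_iff₀ hδ] at hMR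
  have hM0 : (0 : ℝ) ≤ M := by positivity
  have hM2R : (2 : ℝ) ≤ M := by nlinarith
  have hM2 : 2 ≤ M := by exact_mod_cast hM2R
  obtain ⟨b, hb⟩ : ∃ b : ℝ, b = ((M : ℝ) + 2) * ((M : ℝ) + 1) ^ (M + 1) := ⟨_, rfl⟩
  have hb0 : 0 < b := by rw [hb]; positivity
  refine ⟨δ ^ 4 / 400, by positivity, ⌈3840 * (b + 1) / δ ^ 5⌉₊ + ⌈5 / δ⌉₊, ?_⟩
  intro V _ G D k t hD₀ ht hN hce hk o f hf
  obtain ⟨x, hx⟩ : ∃ x : ℝ, x = (D : ℝ) := ⟨_, rfl⟩
  have hDR : (⌈3840 * (b + 1) / δ ^ 5⌉₊ : ℝ) + (⌈5 / δ⌉₊ : ℝ) ≤ x := by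
    rw [hx]; exact_mod_cast hD₀
  have e1 : 3840 * (b + 1) / δ ^ 5 ≤ (⌈3840 * (b + 1) / δ ^ 5⌉₊ : ℝ) := Nat.le_ceil _
  have e2 : 5 / δ ≤ (⌈5 / δ⌉₊ : ℝ) := Nat.le_ceil _
  have e3 : 0 < 3840 * (b + 1) / δ ^ 5 := by positivity
  have e4 : 0 < 5 / δ := by positivity
  have hx0 : 0 < x := by linarith
  have hx5 : 5 ≤ x * δ := by
    have : 5 / δ ≤ x := by linarith
    rwa [div_le_iff₀ hδ] at this
  have hxb : 3840 * (b + 1) ≤ x * δ ^ 5 := by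
    have : 3840 * (b + 1) / δ ^ 5 ≤ x := by linarith
    rwa [div_le_iff₀ (by positivity)] at this
  have hxM : x / ((M : ℝ) + 1) ≤ δ * x / 10 := by
    rw [div_le_iff₀ (by positivity)]
    nlinarith [mul_nonneg hx0.le hδ.le, mul_le_mul_of_nonneg_left hMδ hx0.le]
  have hφ : ∀ n, 0 ≤ φU n ∧ φU n ≤ 1 := by
    intro n; unfold φU; split_ifs <;> norm_num
  have hτ : δ / 2 ≤ (1 - δ / 4) * (1 + δ) - 1 := by nlinarith
  rw [← hx] at hk hce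
  refine hGE V k G (W1 G) M D φU (1 + δ) (5 / 2) (1 + δ + 1 / 2) 1 t (δ ^ 4 / 400 * x)
    (δ * x / 10) (δ * x / 2) (δ / 4) o ?_ hN (by omega) hφ (by linarith) (by linarith)
    (by norm_num) (by norm_num) ?_ hce (by positivity) ?_ (by positivity) ?_ (by positivity)
    (by linarith) (by linarith) ?_ f hf
  · intro y; exact Finset.mem_insert_self _ _
  · intro f' hf'
    exact hIU V k G M f' o (1 + δ) hM2 (by linarith) hf'
  · have : φU 1 = 1 := by simp [φU]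
    rw [this, one_mul, ← hx]
    have : δ * x ≤ 1 * x := mul_le_mul_of_nonneg_right hδ1 hx0.le
    nlinarith
  · rw [← hx]
    linarith
  · rw [← hb, ← hx]
    have hη1 : δ ^ 4 / 400 ≤ 1 := by
      have : δ ^ 4 ≤ 1 := pow_le_one₀ hδ.le hδ1
      linarith
    have hη0 : 0 ≤ δ ^ 4 / 400 := by positivity
    have ha1 : 0 ≤ b * x + δ ^ 4 / 400 * x * (δ * x / 10 + 1) := by positivity
    have ha2 : (1 + δ) * x + δ * x / 2 ≤ 3 * x := by nlinarith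
    have ha20 : 0 ≤ (1 + δ) * x + δ * x / 2 := by positivity
    have f1 : (b * x + δ ^ 4 / 400 * x * (δ * x / 10 + 1)) * ((1 + δ) * x + δ * x / 2) * (1 + δ) ≤
        (b * x + δ ^ 4 / 400 * x * (δ * x / 10 + 1)) * (3 * x) * 2 := by
      apply mul_le_mul _ (by linarith) (by linarith) (by positivity)
      exact mul_le_mul_of_nonneg_left ha2 ha1
    have f2 : δ / 4 * (δ * x / 10) * (δ * x / 2) ^ 2 * (δ / 2) ≤
        δ / 4 * (δ * x / 10) * (δ * x / 2) ^ 2 * ((1 - δ / 4) * (1 + δ) - 1) :=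
      mul_le_mul_of_nonneg_left hτ (by positivity)
    refine f1.trans (le_trans ?_ f2)
    have f3 : 3840 * (b + 1) * x ^ 2 ≤ x * δ ^ 5 * x ^ 2 :=
      mul_le_mul_of_nonneg_right hxb (by positivity)
    have f4 : δ ^ 4 / 400 * x ^ 2 ≤ 1 * x ^ 2 := mul_le_mul_of_nonneg_right hη1 (by positivity)
    have f5 : 0 ≤ δ ^ 5 * x ^ 3 := by positivity
    nlinarith

end Pool.Agent.Helper45.KT
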